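import Mathlib

/-!
Combinatorial core: a proper countably complete ideal on a set of size aleph one (with countable
initial segments) which is dense in a small family has no large family of pairwise almost
everywhere different functions.
-/

open Cardinal Set

universe u v

namespace Pool.Agent.Helper14.NW

/-- Connected components of a graph with countable degrees are countable. -/
theorem countable_component {α : Type u} (N : α → Set α) (hN : ∀ a, (N a).Countable) (a : α) :
    {b | Relation.ReflTransGen (fun x y => y ∈ N x) a b}.Countable := by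
  classical
  let S : ℕ → Set α := fun n => Nat.rec {a} (fun _ T => T ∪ ⋃ x ∈ T, N x) n
  have hS : ∀ n, (S n).Countable := by
    intro n
    induction n with
    | zero => exact countable_singleton a
    | succ n ih =>
      exact ih.union (ih.biUnion fun x _ => hN x)
  refine (countable_iUnion hS).mono ?_
  intro b hb
  induction hb with
  | refl => exact mem_iUnion.2 ⟨0, rfl⟩
  | tail _ hbc ih =>
    obtain ⟨n, hn⟩ := mem_iUnion.1 ih
    exact mem_iUnion.2 ⟨n + 1, Or.inr (mem_biUnion hn hbc)⟩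

/-- A proper countably complete ideal containing the singletons. -/
structure SIdeal (Ω : Type u) where
  Null : Set Ω → Prop
  mono : ∀ {S T : Set Ω}, S ⊆ T → Null T → Null S
  iUnion : ∀ S : ℕ → Set Ω, (∀ n, Null (S n)) → Null (⋃ n, S n)
  single : ∀ a, Null {a}
  empty : Null ∅
  proper : ¬ Null univ

namespace SIdeal

variable {Ω : Type u} (I : SIdeal Ω)

theorem union {S T : Set Ω} (hS : I.Null S) (hT : I.Null T) : I.Null (S ∪ T) := by
  have h := I.iUnion (fun n : ℕ => if n = 0 then S else T) (by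
    intro n; by_cases h : n = 0 <;> simp [h, hS, hT])
  refine I.mono ?_ h
  intro x hx
  rcases hx with hx | hx
  · exact mem_iUnion.2 ⟨0, by simpa using hx⟩
  · exact mem_iUnion.2 ⟨1, by simpa using hx⟩

theorem countable {S : Set Ω} (hS : S.Countable) : I.Null S := by
  rcases S.eq_empty_or_nonempty with rfl | hne
  · exact I.empty
  · obtain ⟨f, hf⟩ := hS.exists_eq_range hne
    rw [hf]
    have : range f = ⋃ n, {f n} := by
      ext x; simp [eq_comm]
    rw [this]
    exact I.iUnion _ fun n => I.single _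

/-- restriction of the ideal to a positive set -/
def restrict (C : Set Ω) (hC : ¬ I.Null C) : SIdeal Ω where
  Null S := I.Null (S ∩ C)
  mono h hT := I.mono (inter_subset_inter_left _ h) hT
  iUnion S hS := by
    rw [iUnion_inter]; exact I.iUnion _ hS
  single a := I.mono inter_subset_left (I.single a)
  empty := by simpa using I.empty
  proper := by simpa using hC

end SIdeal

/-- The main combinatorial lemma: `κ`-dense ideals have no `> κ` almost everywhere different
functions from `Ω` to `Ω`. -/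
theorem core1 {Ω : Type u} [LinearOrder Ω] (hIic : ∀ a : Ω, (Iic a).Countable)
    (j : Ω → ℕ → Bool) (hj : Function.Injective j)
    (I : SIdeal Ω) (𝒞 : Set (Set Ω)) (hC : ∀ C ∈ 𝒞, ¬ I.Null C)
    (hdense : ∀ S, ¬ I.Null S → ∃ C ∈ 𝒞, C ⊆ S)
    (κ : Cardinal.{u}) (hκ : ℵ₀ ≤ κ) (h𝒞 : #𝒞 ≤ κ) {ι : Type u} (hι : κ < #ι)
    (f : ι → Ω → Ω) (hf : ∀ i k, i ≠ k → I.Null {a | f i a = f k a}) : False := by
  classical
  -- injections of initial segments into ℕ
  have he : ∀ b : Ω, ∃ e : Ω → ℕ, InjOn e (Iic b) := by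
    intro b
    obtain ⟨e, he⟩ := Set.countable_iff_exists_injOn.1 (hIic b)
    exact ⟨e, he⟩
  choose e he using he
  -- functions bounded on a positive set by `g`
  have bad : ∀ g : Ω → Ω, #{i : ι // ¬ I.Null {a | f i a ≤ g a}} ≤ κ := by
    intro g
    have h1 : ∀ i : {i : ι // ¬ I.Null {a | f i a ≤ g a}}, ∃ p : 𝒞 × ℕ,
        ∀ a ∈ (p.1 : Set Ω), f i a ≤ g a ∧ e (g a) (f i a) = p.2 := by
      intro i
      have : ∃ n : ℕ, ¬ I.Null {a | f i a ≤ g a ∧ e (g a) (f i a) = n} := by
        by_contra hcon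
        push Not at hcon
        apply i.2
        refine I.mono ?_ (I.iUnion _ hcon)
        intro a ha
        exact mem_iUnion.2 ⟨e (g a) (f i a), ha, rfl⟩
      obtain ⟨n, hn⟩ := this
      obtain ⟨C, hC1, hC2⟩ := hdense _ hn
      exact ⟨(⟨C, hC1⟩, n), fun a ha => hC2 ha⟩
    choose p hp using h1
    have hinj : Function.Injective p := by
      intro i k hik
      by_contra hne
      have hne' : (i : ι) ≠ k := fun h => hne (Subtype.ext h)
      have hnull := hf i k hne'
      have hsub : ((p i).1 : Set Ω) ⊆ {a | f i a = f k a} := by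
        intro a ha
        have h1 := hp i a ha
        have h2 := hp k a (hik ▸ ha)
        apply he (g a) h1.1 h2.1
        rw [h1.2, h2.2, hik]
      exact hC _ (p i).1.2 (I.mono hsub hnull)
    calc #{i : ι // ¬ I.Null {a | f i a ≤ g a}} ≤ #(𝒞 × ℕ) := mk_le_of_injective hinj
      _ = #𝒞 * ℵ₀ := by simp
      _ ≤ κ * κ := mul_le_mul' h𝒞 hκ
      _ = κ := mul_eq_self hκ
  -- points of `C` above a given point
  have hnx : ∀ C : 𝒞, ∀ a : Ω, ∃ b ∈ (C : Set Ω), a ≤ b := by
    intro C a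
    by_contra hcon
    push Not at hcon
    apply hC _ C.2
    exact I.countable ((hIic a).mono fun b hb => (hcon b hb).le)
  choose nx hnx1 hnx2 using hnx
  obtain ⟨i, hi⟩ : ∃ i : ι, ∀ C : 𝒞, I.Null {a | f i a ≤ nx C a} := by
    by_contra hcon
    push Not at hcon
    have h1 : (univ : Set ι) ⊆ ⋃ C : 𝒞, {i : ι | ¬ I.Null {a | f i a ≤ nx C a}} := by
      intro i _
      obtain ⟨C, hC⟩ := hcon i
      exact mem_iUnion.2 ⟨C, hC⟩
    have h2 : #ι ≤ κ := by
      calc #ι = #(univ : Set ι) := mk_univ.symm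
        _ ≤ #(⋃ C : 𝒞, {i : ι | ¬ I.Null {a | f i a ≤ nx C a}} : Set ι) := mk_le_mk_of_subset h1
        _ ≤ Cardinal.sum fun C : 𝒞 => #{i : ι | ¬ I.Null {a | f i a ≤ nx C a}} :=
            mk_iUnion_le_sum_mk
        _ ≤ Cardinal.sum fun _ : 𝒞 => κ := sum_le_sum _ _ fun C => bad (nx C)
        _ = #𝒞 * κ := by simp
        _ ≤ κ * κ := mul_le_mul_left h𝒞 κ
        _ = κ := mul_eq_self hκ
    exact absurd hι (not_lt.2 h2)
  set g := f i with hg
  -- the graph
  let N : Ω → Set Ω := fun a => {b | (a ≤ b ∧ b ≤ g a) ∨ (b ≤ a ∧ a ≤ g b)}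
  have hNc : ∀ a, (N a).Countable := by
    intro a
    refine ((hIic (g a)).union (hIic a)).mono ?_
    rintro b (hb | hb)
    · exact Or.inl hb.2
    · exact Or.inr hb.1
  let r : Ω → Ω → Prop := Relation.ReflTransGen (fun x y => y ∈ N x)
  have hrsymm : ∀ a b, r a b → r b a := by
    intro a b h
    induction h with
    | refl => exact Relation.ReflTransGen.refl
    | tail _ hbc ih =>
      refine Relation.ReflTransGen.head ?_ ih
      rcases hbc with h | h
      · exact Or.inr h
      · exact Or.inl h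
  let s : Setoid Ω := ⟨r, fun a => Relation.ReflTransGen.refl, fun {a b} => hrsymm a b,
    fun {a b c} => Relation.ReflTransGen.trans⟩
  have key : ∀ Z : Set Ω, (∀ a b, r a b → a ∈ Z → b ∈ Z) → ¬ I.Null Z → I.Null Zᶜ := by
    intro Z hZ hZn
    obtain ⟨C, hC1, hC2⟩ := hdense Z hZn
    refine I.mono ?_ (hi ⟨C, hC1⟩)
    intro a ha
    by_contra hcon
    have hlt : nx ⟨C, hC1⟩ a < g a := not_le.1 hcon
    apply ha
    refine hZ (nx ⟨C, hC1⟩ a) a (hrsymm _ _ ?_) (hC2 (hnx1 ⟨C, hC1⟩ a))
    exact Relation.ReflTransGen.single (Or.inl ⟨hnx2 _ _, hlt.le⟩)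
  -- bits
  let q : Ω → ℕ → Bool := fun a => j (Quotient.out (Quotient.mk s a))
  have hq : ∀ a b, r a b → q a = q b := by
    intro a b h
    have : Quotient.mk s a = Quotient.mk s b := Quotient.sound h
    simp only [q, this]
  have hq2 : ∀ a b, q a = q b → r a b := by
    intro a b h
    have h1 : Quotient.out (Quotient.mk s a) = Quotient.out (Quotient.mk s b) := hj h
    have h2 : Quotient.mk s a = Quotient.mk s b := by
      rw [← Quotient.out_eq (Quotient.mk s a), ← Quotient.out_eq (Quotient.mk s b), h1]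
    exact Quotient.exact h2
  have hbit : ∀ n : ℕ, ∃ c : Bool, I.Null {a | q a n ≠ c} := by
    intro n
    by_cases h : I.Null {a | q a n = true}
    · refine ⟨false, I.mono ?_ h⟩
      intro a ha
      simpa using ha
    · refine ⟨true, I.mono ?_ (key _ ?_ h)⟩
      · intro a ha
        exact ha
      · intro a b hab ha
        have := hq a b hab
        simp only [mem_ofPred_eq] at ha ⊢
        rw [← this]; exact ha
  choose c hc using hbit
  have h1 : I.Null {a | q a ≠ c} := by
    refine I.mono ?_ (I.iUnion _ hc)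
    intro a ha
    obtain ⟨n, hn⟩ := Function.ne_iff.1 ha
    exact mem_iUnion.2 ⟨n, hn⟩
  have h2 : I.Null {a | q a = c} := by
    rcases ({a | q a = c} : Set Ω).eq_empty_or_nonempty with h | ⟨a, ha⟩
    · rw [h]; exact I.empty
    · apply I.countable
      refine (countable_component N hNc a).mono ?_
      intro b hb
      have hb' : q b = c := hb
      have ha' : q a = c := ha
      exact hq2 a b (ha'.trans hb'.symm)
  apply I.proper
  refine I.mono ?_ (I.union h1 h2)
  intro a _
  by_cases h : q a = c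
  · exact Or.inr h
  · exact Or.inl h

/-- Version for functions with values in a set covered by few small sets. -/
theorem core2 {Ω : Type u} [LinearOrder Ω] (hIic : ∀ a : Ω, (Iic a).Countable)
    (j : Ω → ℕ → Bool) (hj : Function.Injective j)
    (I : SIdeal Ω) (𝒞 : Set (Set Ω)) (hC : ∀ C ∈ 𝒞, ¬ I.Null C)
    (hdense : ∀ S, ¬ I.Null S → ∃ C ∈ 𝒞, C ⊆ S)
    (κ : Cardinal.{u}) (hκ : ℵ₀ ≤ κ) (h𝒞 : #𝒞 ≤ κ) {T : Type u} (Pf : Set (Set T))
    (hPf : #Pf ≤ κ) (hP : ∀ P ∈ Pf, #P ≤ #Ω)
    (hcov : ∀ F : Ω → T, ∃ P : ℕ → Set T, (∀ n, P n ∈ Pf) ∧ ∀ a, ∃ n, F a ∈ P n)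
    {ι : Type u} (hι : κ < #ι)
    (f : ι → Ω → T) (hf : ∀ i k, i ≠ k → I.Null {a | f i a = f k a}) : False := by
  classical
  have h1 : ∀ i : ι, ∃ p : 𝒞 × Pf, ∀ a ∈ (p.1 : Set Ω), f i a ∈ (p.2 : Set T) := by
    intro i
    obtain ⟨P, hP1, hP2⟩ := hcov (f i)
    have : ∃ n, ¬ I.Null {a | f i a ∈ P n} := by
      by_contra hcon
      push Not at hcon
      apply I.proper
      refine I.mono ?_ (I.iUnion _ hcon)
      intro a _
      obtain ⟨n, hn⟩ := hP2 a
      exact mem_iUnion.2 ⟨n, hn⟩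
    obtain ⟨n, hn⟩ := this
    obtain ⟨C, hC1, hC2⟩ := hdense _ hn
    exact ⟨(⟨C, hC1⟩, ⟨P n, hP1 n⟩), fun a ha => hC2 ha⟩
  choose p hp using h1
  obtain ⟨y, hy⟩ : ∃ y : 𝒞 × Pf, κ < #{i : ι // p i = y} := by
    by_contra hcon
    push Not at hcon
    have h2 : #ι ≤ κ := by
      calc #ι = #(Σ y : 𝒞 × Pf, {i : ι // p i = y}) := mk_congr (Equiv.sigmaFiberEquiv p).symm
        _ = Cardinal.sum fun y : 𝒞 × Pf => #{i : ι // p i = y} := mk_sigma _
        _ ≤ Cardinal.sum fun _ : 𝒞 × Pf => κ := sum_le_sum _ _ fun y => hcon y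
        _ = #𝒞 * #Pf * κ := by simp
        _ ≤ κ * κ * κ := by gcongr
        _ = κ := by rw [mul_eq_self hκ, mul_eq_self hκ]
    exact absurd hι (not_lt.2 h2)
  obtain ⟨φ⟩ : Nonempty ((y.2 : Set T) ↪ Ω) := hP _ y.2.2
  have hne : Nonempty Ω := by
    by_contra h
    rw [not_nonempty_iff] at h
    exact I.proper (by
      have : (univ : Set Ω) = ∅ := Subsingleton.elim _ _
      rw [this]; exact I.empty)
  let ψ : T → Ω := fun t => if h : t ∈ (y.2 : Set T) then φ ⟨t, h⟩ else Classical.choice hne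
  have hψ : InjOn ψ (y.2 : Set T) := by
    intro s hs t ht hst
    simp only [ψ, dif_pos hs, dif_pos ht] at hst
    exact congrArg Subtype.val (φ.injective hst)
  have hCy : ¬ I.Null (y.1 : Set Ω) := hC _ y.1.2
  refine core1 hIic j hj (I.restrict (y.1 : Set Ω) hCy) {C | C ∈ 𝒞 ∧ C ⊆ (y.1 : Set Ω)}
    ?_ ?_ κ hκ ?_ hy (fun i a => ψ (f i.1 a)) ?_
  · rintro C ⟨hC1, hC2⟩ hn
    have hn' : I.Null (C ∩ (y.1 : Set Ω)) := hn
    rw [inter_eq_left.2 hC2] at hn'
    exact hC C hC1 hn'
  · intro S hS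
    have hS' : ¬ I.Null (S ∩ (y.1 : Set Ω)) := hS
    obtain ⟨C, hC1, hC2⟩ := hdense _ hS'
    exact ⟨C, ⟨hC1, hC2.trans inter_subset_right⟩, hC2.trans inter_subset_left⟩
  · exact (mk_le_mk_of_subset fun C h => h.1).trans h𝒞
  · intro i k hik
    have hik' : (i : ι) ≠ k := fun h => hik (Subtype.ext h)
    refine I.mono ?_ (hf i k hik')
    rintro a ⟨ha, haC⟩
    have h1 := hp i a (by rw [i.2]; exact haC)
    have h2 := hp k a (by rw [k.2]; exact haC)
    rw [i.2] at h1
    rw [k.2] at h2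
    exact hψ h1 h2 ha

end Pool.Agent.Helper14.NW
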