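import Mathlib

/-!
Every set of size less than `ℵ_ω₁` has a small family of subsets of size at most `ℵ₁` such that
every subset of size at most `ℵ₁` is covered by countably many members of the family.
-/

open Cardinal Ordinal Set

universe u v

namespace Pool.Agent.Helper14.NW

/-- countable covering by few sets of size at most `ℵ₁` -/
def Cov (T : Type u) (κ : Cardinal.{u}) : Prop :=
  ∃ Pf : Set (Set T), #Pf ≤ κ ∧ (∀ P ∈ Pf, #P ≤ ℵ₁) ∧
    ∀ A : Set T, #A ≤ ℵ₁ → ∃ P : ℕ → Set T, (∀ n, P n ∈ Pf) ∧ A ⊆ ⋃ n, P n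

theorem Cov.mono {T : Type u} {κ κ' : Cardinal.{u}} (h : Cov T κ) (hk : κ ≤ κ') : Cov T κ' := by
  obtain ⟨Pf, h1, h2, h3⟩ := h
  exact ⟨Pf, h1.trans hk, h2, h3⟩

theorem Cov.congr {T T' : Type u} (e : T' ≃ T) {κ : Cardinal.{u}} (h : Cov T κ) : Cov T' κ := by
  obtain ⟨Pf, h1, h2, h3⟩ := h
  refine ⟨(fun P => e ⁻¹' P) '' Pf, mk_image_le.trans h1, ?_, ?_⟩
  · rintro _ ⟨P, hP, rfl⟩
    rw [mk_preimage_equiv]
    exact h2 P hP
  · intro A hA
    obtain ⟨P, hP1, hP2⟩ := h3 (e '' A) (mk_image_le.trans hA)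
    refine ⟨fun n => e ⁻¹' (P n), fun n => ⟨P n, hP1 n, rfl⟩, ?_⟩
    intro a ha
    obtain ⟨n, hn⟩ := mem_iUnion.1 (hP2 (mem_image_of_mem e ha))
    exact mem_iUnion.2 ⟨n, hn⟩

theorem cof_cases (θ : Cardinal.{u}) (hθ : θ < ℵ_ ω₁) (hθ' : ℵ₁ < θ) :
    θ.ord.cof = ℵ₀ ∨ ℵ₁ < θ.ord.cof := by
  obtain ⟨o, rfl⟩ := mem_range_aleph_iff.2 (aleph0_le_aleph 1 |>.trans hθ'.le)
  have ho : o < ω₁ := aleph_lt_aleph.1 hθ
  rcases zero_or_succ_or_isSuccLimit o with rfl | ⟨a, rfl⟩ | hlim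
  · exact absurd (aleph_lt_aleph.1 hθ') (by simp)
  · right
    have h := (isRegular_aleph_add_one a).cof_ord
    rw [← Order.succ_eq_add_one] at h
    rw [h]
    exact hθ'
  · left
    rw [ord_aleph, cof_omega hlim, cof_eq_aleph0_of_isSuccLimit hlim ho]

theorem cov_of_lt (θ : Cardinal.{u}) : θ < ℵ_ ω₁ → ∀ T : Type u, #T = θ → Cov T (max θ ℵ₀) := by
  induction θ using WellFoundedLT.induction with
  | ind θ ih =>
  intro hθ T hT
  rcases le_or_gt θ ℵ₁ with hle | hgt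
  · refine ⟨{Set.univ}, ?_, ?_, ?_⟩
    · rw [mk_singleton]
      exact one_le_aleph0.trans (le_max_right _ _)
    · rintro P rfl
      rw [mk_univ, hT]; exact hle
    · intro A _
      exact ⟨fun _ => Set.univ, fun _ => rfl, fun a _ => mem_iUnion.2 ⟨0, mem_univ a⟩⟩
  · have hθ0 : ℵ₀ ≤ θ := (aleph0_le_aleph 1).trans hgt.le
    rw [max_eq_left hθ0]
    obtain ⟨e⟩ : Nonempty (T ≃ θ.ord.ToType) := Cardinal.eq.1 (by rw [hT, mk_ord_toType])
    refine Cov.congr e ?_
    have hb : ∀ b : θ.ord.ToType, Cov (Iio b) θ := by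
      intro b
      have h1 : #(Iio b) < θ := mk_Iio_toType_ord_lt b
      exact (ih _ h1 (h1.trans hθ) (Iio b) rfl).mono (max_le h1.le hθ0)
    choose Pf h1 h2 h3 using hb
    refine ⟨⋃ b, (fun P : Set (Iio b) => ((↑) : Iio b → θ.ord.ToType) '' P) '' Pf b, ?_, ?_, ?_⟩
    · calc #(⋃ b, (fun P : Set (Iio b) => ((↑) : Iio b → θ.ord.ToType) '' P) '' Pf b : Set _)
          ≤ Cardinal.sum fun b : θ.ord.ToType =>
            #((fun P : Set (Iio b) => ((↑) : Iio b → θ.ord.ToType) '' P) '' Pf b) :=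
              mk_iUnion_le_sum_mk
        _ ≤ Cardinal.sum fun _ : θ.ord.ToType => θ := sum_le_sum _ _ fun b => mk_image_le.trans (h1 b)
        _ = θ * θ := by simp
        _ = θ := mul_eq_self hθ0
    · intro P hP
      obtain ⟨b, hP⟩ := mem_iUnion.1 hP
      obtain ⟨Q, hQ, rfl⟩ := hP
      exact mk_image_le.trans (h2 b Q hQ)
    · -- covering of a set contained in an initial segment
      have hseg : ∀ (b : θ.ord.ToType) (A : Set θ.ord.ToType), #A ≤ ℵ₁ → A ⊆ Iio b →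
          ∃ P : ℕ → Set θ.ord.ToType,
          (∀ n, P n ∈ ⋃ b, (fun P : Set (Iio b) => ((↑) : Iio b → θ.ord.ToType) '' P) '' Pf b) ∧
          A ⊆ ⋃ n, P n := by
        intro b A hA hAb
        have hA' : #(((↑) : Iio b → θ.ord.ToType) ⁻¹' A : Set (Iio b)) ≤ ℵ₁ :=
          (mk_preimage_of_injective _ _ Subtype.val_injective).trans hA
        obtain ⟨P, hP1, hP2⟩ := h3 b _ hA'
        refine ⟨fun n => ((↑) : Iio b → θ.ord.ToType) '' P n,
          fun n => mem_iUnion.2 ⟨b, P n, hP1 n, rfl⟩, ?_⟩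
        intro a ha
        obtain ⟨n, hn⟩ := mem_iUnion.1 (hP2 (show (⟨a, hAb ha⟩ : Iio b) ∈ _ from ha))
        exact mem_iUnion.2 ⟨n, ⟨a, hAb ha⟩, hn, rfl⟩
      intro A hA
      have hcof : Order.cof θ.ord.ToType = θ.ord.cof := cof_toType _
      rcases cof_cases θ hθ hgt with hc | hc
      · obtain ⟨s, hs1, hs2⟩ := Order.exists_cof_eq (α := θ.ord.ToType)
        rw [hcof, hc] at hs2
        obtain ⟨⟨f⟩⟩ : Nonempty (Nonempty (ℕ ≃ s)) := by
          have : #(ULift.{u} ℕ) = #s := by rw [hs2]; simp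
          obtain ⟨g⟩ := Cardinal.eq.1 this
          exact ⟨⟨Equiv.ulift.symm.trans g⟩⟩
        have hnm : NoMaxOrder θ.ord.ToType := noMaxOrder hθ0
        have hcov : ∀ n : ℕ, ∃ P : ℕ → Set θ.ord.ToType,
          (∀ k, P k ∈ ⋃ b, (fun P : Set (Iio b) => ((↑) : Iio b → θ.ord.ToType) '' P) '' Pf b) ∧
          A ∩ Iic (f n : θ.ord.ToType) ⊆ ⋃ k, P k := by
          intro n
          obtain ⟨c, hc⟩ := exists_gt (f n : θ.ord.ToType)
          exact hseg c _ ((mk_le_mk_of_subset inter_subset_left).trans hA)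
            (fun a ha => lt_of_le_of_lt ha.2 hc)
        choose P hP1 hP2 using hcov
        refine ⟨fun n => P n.unpair.1 n.unpair.2, fun n => hP1 _ _, ?_⟩
        intro a ha
        obtain ⟨c, hc1, hc2⟩ := hs1 a
        obtain ⟨n, hn⟩ := f.surjective ⟨c, hc1⟩
        have : a ∈ A ∩ Iic (f n : θ.ord.ToType) := ⟨ha, by rw [hn]; exact hc2⟩
        obtain ⟨k, hk⟩ := mem_iUnion.1 (hP2 n this)
        exact mem_iUnion.2 ⟨Nat.pair n k, by simpa using hk⟩
      · have hnot : ¬ IsCofinal A := by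
          intro h
          have := Order.cof_le h
          rw [hcof] at this
          exact absurd (hc.trans_le (this.trans hA)) (lt_irrefl _)
        obtain ⟨b, hb⟩ : ∃ b, ∀ a ∈ A, a < b := by
          by_contra hcon
          push Not at hcon
          exact hnot fun b => by
            obtain ⟨a, ha, hab⟩ := hcon b
            exact ⟨a, ha, hab⟩
        exact hseg b A hA hb

end Pool.Agent.Helper14.NW
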