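import Mathlib

/-!
Definitions for MP_56e317_lc: local bases, witnessing normality, separated subspaces.
-/

universe u

namespace Pool.Agent.Helper14.NW

/-- `B` is a local base (of open neighbourhoods) of `X` at the point `x`. -/
def IsLocalBase {X : Type u} [TopologicalSpace X] (x : X) (B : Set (Set X)) : Prop :=
  (∀ U ∈ B, IsOpen U ∧ x ∈ U) ∧ ∀ V : Set X, IsOpen V → x ∈ V → ∃ U ∈ B, U ⊆ V

/-- The function `f` on `Y` witnesses normality for `Z ⊆ Y`:
the sets `⋃ y ∈ Z, f y` and `⋃ y ∈ Y \ Z, f y` are disjoint. -/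
def WitnessesNormality {X : Type u} {Y : Set X} (f : Y → Set X) (Z : Set Y) : Prop :=
  (⋃ y ∈ Z, f y) ∩ (⋃ y ∈ Zᶜ, f y) = ∅

/-- `Y` is separated: there are pairwise disjoint open sets `U y ∋ y`, `y ∈ Y`. -/
def IsSeparatedSubset {X : Type u} [TopologicalSpace X] (Y : Set X) : Prop :=
  ∃ U : Y → Set X, (∀ y, IsOpen (U y) ∧ (y : X) ∈ U y) ∧ ∀ y z : Y, y ≠ z → U y ∩ U z = ∅

end Pool.Agent.Helper14.NW
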