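import Mathlib
import Pool.Agent.Helper14.NW.Core
import Pool.Agent.Helper14.NW.Cover
import Pool.Agent.Helper14.NW.Defs

/-!
From few normality witnesses to a separation.
-/

open Cardinal Ordinal Set

universe u v

namespace Pool.Agent.Helper14.NW

/-- separation of `S` by finite sets of indices -/
def Sep {Ω R : Type u} (E : R → Setoid Ω) (S : Set Ω) : Prop :=
  ∃ h : Ω → Set R, (∀ a, (h a).Finite) ∧
    ∀ a ∈ S, ∀ b ∈ S, a ≠ b → ∃ r ∈ h a ∩ h b, ¬ (E r).r a b

section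

variable {Ω R : Type u} (E : R → Setoid Ω)

theorem Sep.mono {S T : Set Ω} (hST : S ⊆ T) (hT : Sep E T) : Sep E S := by
  obtain ⟨h, h1, h2⟩ := hT
  exact ⟨h, h1, fun a ha b hb => h2 a (hST ha) b (hST hb)⟩

theorem Sep.iUnion (hcap : ∀ Z : Set Ω, ∃ r, ∀ a b, (E r).r a b → a ∈ Z → b ∈ Z)
    (S : ℕ → Set Ω) (hS : ∀ n, Sep E (S n)) : Sep E (⋃ n, S n) := by
  classical
  choose h hfin hsep using hS
  -- first index
  have hex : ∀ a ∈ ⋃ n, S n, ∃ n, a ∈ S n := fun a ha => mem_iUnion.1 ha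
  let ν : Ω → ℕ := fun a => if ha : ∃ n, a ∈ S n then Nat.find ha else 0
  choose r hr using fun n : ℕ => hcap {a | ν a = n}
  refine ⟨fun a => h (ν a) a ∪ r '' (Iic (ν a)), fun a => (hfin _ _).union
    ((finite_Iic _).image r), ?_⟩
  have hνS : ∀ a ∈ ⋃ n, S n, a ∈ S (ν a) := by
    intro a ha
    have h := hex a ha
    simp only [ν, dif_pos h]
    exact Nat.find_spec h
  -- case of different indices
  have hlt : ∀ a b : Ω, ν a < ν b → ∃ s ∈ (h (ν a) a ∪ r '' (Iic (ν a))) ∩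
      (h (ν b) b ∪ r '' (Iic (ν b))), ¬ (E s).r a b := by
    intro a b hab
    refine ⟨r (ν a), ⟨Or.inr ⟨ν a, mem_Iic.2 le_rfl, rfl⟩, Or.inr ⟨ν a, mem_Iic.2 hab.le, rfl⟩⟩, ?_⟩
    intro hE
    have : ν b = ν a := hr (ν a) a b hE rfl
    omega
  intro a ha b hb hab
  rcases lt_trichotomy (ν a) (ν b) with h1 | h1 | h1
  · exact hlt a b h1
  · obtain ⟨s, hs1, hs2⟩ := hsep (ν a) a (hνS a ha) b (h1 ▸ hνS b hb) hab
    exact ⟨s, ⟨Or.inl hs1.1, Or.inl (h1 ▸ hs1.2)⟩, hs2⟩
  · obtain ⟨s, hs1, hs2⟩ := hlt b a h1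
    exact ⟨s, ⟨hs1.2, hs1.1⟩, fun hE => hs2 ((E s).symm hE)⟩

theorem Sep.class' (r : R) (S : Set Ω) (h : ∀ a, Sep E (S ∩ {b | (E r).r a b})) : Sep E S := by
  classical
  choose h hfin hsep using h
  let c : Ω → Ω := fun a => Quotient.out (Quotient.mk (E r) a)
  have hc : ∀ a, (E r).r (c a) a := fun a => Quotient.mk_out (s := E r) a
  refine ⟨fun a => insert r (h (c a) a), fun a => (hfin _ _).insert r, ?_⟩
  intro a ha b hb hab
  by_cases hE : (E r).r a b
  · have hcc : c a = c b := by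
      have : Quotient.mk (E r) a = Quotient.mk (E r) b := Quotient.sound hE
      simp only [c, this]
    obtain ⟨s, hs1, hs2⟩ := hsep (c a) a ⟨ha, hc a⟩ b ⟨hb, hcc ▸ hc b⟩ hab
    exact ⟨s, ⟨Or.inr hs1.1, Or.inr (hcc ▸ hs1.2)⟩, hs2⟩
  · exact ⟨r, ⟨Or.inl rfl, Or.inl rfl⟩, hE⟩

end

/-- The combinatorial theorem, with an arbitrary large family of eventually different functions
into a set covered by few small sets. -/
theorem comb_gen {Ω R : Type u} (E : R → Setoid Ω) (hΩ : #Ω = ℵ₁)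
    (hcap : ∀ Z : Set Ω, ∃ r, ∀ a b, (E r).r a b → a ∈ Z → b ∈ Z)
    (κ : Cardinal.{u}) (hR : #R ≤ κ) (h1κ : ℵ₁ ≤ κ)
    {T : Type u} (hT : Cov T κ) {ι : Type u} (hι : κ < #ι) (f : ι → Ω → T)
    (hf : ∀ i k, i ≠ k → {a | f i a = f k a}.Countable) : Sep E univ := by
  classical
  by_contra hsep
  -- transfer to `ω₁`
  let W := (ℵ₁ : Cardinal.{u}).ord.ToType
  obtain ⟨e⟩ : Nonempty (Ω ≃ W) := Cardinal.eq.1 (by rw [hΩ, mk_ord_toType])
  let _ : LinearOrder Ω := LinearOrder.lift' e e.injective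
  have hIio : ∀ b : W, (Iio b).Countable := by
    intro b
    have h1 : #(Iio b) < ℵ₁ := mk_Iio_toType_ord_lt b
    have h2 : #(Iio b) < Order.succ ℵ₀ := h1.trans_eq succ_aleph0.symm
    exact mk_le_aleph0_iff.1 (Order.lt_succ_iff.1 h2)
  have hIic : ∀ a : Ω, (Iic a).Countable := by
    intro a
    have h1 : (Iic (e a)).Countable := by
      rw [← Iio_insert]
      exact (hIio _).insert _
    exact h1.preimage e.injective
  have hκ0 : ℵ₀ ≤ κ := (aleph0_le_aleph 1).trans h1κ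
  obtain ⟨j⟩ : Nonempty (Ω ↪ (ULift.{u} (ℕ → Bool))) := by
    rw [← Cardinal.le_def, hΩ]
    have : #(ULift.{u} (ℕ → Bool)) = 𝔠 := by simp
    rw [this]; exact aleph_one_le_continuum
  let I : SIdeal Ω :=
    { Null := Sep E
      mono := fun h => Sep.mono E h
      iUnion := Sep.iUnion E hcap
      single := fun a => ⟨fun _ => ∅, fun _ => finite_empty, by
        rintro x rfl y rfl h; exact absurd rfl h⟩
      empty := ⟨fun _ => ∅, fun _ => finite_empty, by rintro x ⟨⟩⟩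
      proper := hsep }
  let 𝒞 : Set (Set Ω) := {C | ¬ Sep E C ∧ ∃ p : R × Ω, C = {b | (E p.1).r p.2 b}}
  have h𝒞 : #𝒞 ≤ κ := by
    have hsub : 𝒞 ⊆ range fun p : R × Ω => {b | (E p.1).r p.2 b} := by
      rintro C ⟨_, p, hp⟩
      exact ⟨p, hp.symm⟩
    calc #𝒞 ≤ #(range fun p : R × Ω => {b | (E p.1).r p.2 b}) := mk_le_mk_of_subset hsub
      _ ≤ #(R × Ω) := mk_range_le
      _ = #R * #Ω := by simp
      _ ≤ κ * κ := mul_le_mul' hR (hΩ ▸ h1κ)
      _ = κ := mul_eq_self hκ0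
  have hdense : ∀ S, ¬ I.Null S → ∃ C ∈ 𝒞, C ⊆ S := by
    intro S hS
    obtain ⟨r, hr⟩ := hcap S
    by_contra hcon
    push Not at hcon
    apply hS
    apply Sep.class' E r
    intro a
    by_contra hn
    have hne : (S ∩ {b | (E r).r a b}).Nonempty := by
      rw [nonempty_iff_ne_empty]
      intro h
      apply hn
      rw [h]
      exact I.empty
    obtain ⟨b, hb1, hb2⟩ := hne
    refine hcon {b | (E r).r a b} ⟨fun h => hn (Sep.mono E inter_subset_right h), (r, a), rfl⟩ ?_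
    intro c hc
    exact hr b c ((E r).trans ((E r).symm hb2) hc) hb1
  obtain ⟨Pf, hPf1, hPf2, hPf3⟩ := hT
  refine core2 hIic (fun a => (j a).down) (fun a b hab => j.injective (ULift.ext _ _ hab)) I 𝒞
    (fun C hC => hC.1) hdense κ hκ0 h𝒞 Pf hPf1 (fun P hP => (hPf2 P hP).trans hΩ.ge) ?_
    hι f (fun i k hik => I.countable (hf i k hik))
  intro F
  obtain ⟨P, hP1, hP2⟩ := hPf3 (range F) (mk_range_le.trans hΩ.le)
  exact ⟨P, hP1, fun a => mem_iUnion.1 (hP2 (mem_range_self a))⟩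

/-- The combinatorial theorem. -/
theorem comb {Ω R : Type u} (E : R → Setoid Ω) (hΩ : #Ω = ℵ₁)
    (hcap : ∀ Z : Set Ω, ∃ r, ∀ a b, (E r).r a b → a ∈ Z → b ∈ Z)
    (κ : Cardinal.{u}) (hR : #R ≤ κ) (hκ1 : 𝔠 ≤ κ) (hκ2 : κ < 2 ^ (ℵ₁ : Cardinal.{u}))
    (hcov : ∀ T : Type u, #T = 𝔠 → Cov T κ) : Sep E univ := by
  classical
  -- order of type `ω₁`
  let W := (ℵ₁ : Cardinal.{u}).ord.ToType
  obtain ⟨e⟩ : Nonempty (Ω ≃ W) := Cardinal.eq.1 (by rw [hΩ, mk_ord_toType])
  let _ : LinearOrder Ω := LinearOrder.lift' e e.injective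
  have hIio : ∀ b : W, (Iio b).Countable := by
    intro b
    have h1 : #(Iio b) < ℵ₁ := mk_Iio_toType_ord_lt b
    have h2 : #(Iio b) < Order.succ ℵ₀ := h1.trans_eq succ_aleph0.symm
    exact mk_le_aleph0_iff.1 (Order.lt_succ_iff.1 h2)
  have hIic : ∀ a : Ω, (Iic a).Countable := by
    intro a
    have h1 : (Iic (e a)).Countable := by
      rw [← Iio_insert]
      exact (hIio _).insert _
    exact h1.preimage e.injective
  -- the functions
  let T := {S : Set Ω // S.Countable}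
  have hT : #T = 𝔠 := by
    apply le_antisymm
    · have hsurj : Function.Surjective (fun f : ℕ → Option Ω => (⟨{a | some a ∈ range f}, by
        have : {a | some a ∈ range f} ⊆ (fun o : Option Ω => o.getD (Classical.choice (by
          rw [← mk_ne_zero_iff, hΩ]; exact (aleph_pos 1).ne'))) '' range f := by
          intro a ha
          exact ⟨some a, ha, rfl⟩
        exact ((countable_range f).image _).mono this⟩ : T)) := by
        rintro ⟨S, hS⟩
        rcases S.eq_empty_or_nonempty with rfl | hne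
        · refine ⟨fun _ => none, ?_⟩
          apply Subtype.ext
          ext a; simp
        · obtain ⟨f, hf⟩ := hS.exists_eq_range hne
          refine ⟨fun n => some (f n), ?_⟩
          apply Subtype.ext
          ext a; simp [hf]
      calc #T ≤ #(ℕ → Option Ω) := mk_le_of_surjective hsurj
        _ = #(Option Ω) ^ ℵ₀ := by simp
        _ ≤ 𝔠 ^ ℵ₀ := by
          apply power_le_power_right
          rw [mk_option, hΩ]
          exact (add_le_add aleph_one_le_continuum (one_le_aleph0.trans aleph0_le_continuum)).trans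
            (by simp)
        _ = 𝔠 := continuum_power_aleph0
    · obtain ⟨φ⟩ : Nonempty (ULift.{u} ℕ ↪ Ω) := by
        rw [← Cardinal.le_def, hΩ]
        simp
      have : Function.Injective (fun s : Set (ULift.{u} ℕ) => (⟨φ '' s,
        (to_countable s).image _⟩ : T)) := by
        intro s t hst
        have := congrArg Subtype.val hst
        exact φ.injective.image_injective this
      calc 𝔠 = #(Set (ULift.{u} ℕ)) := by simp
        _ ≤ #T := mk_le_of_injective this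
  let f : Set Ω → Ω → T := fun X a => ⟨X ∩ Iic a, (hIic a).mono inter_subset_right⟩
  refine comb_gen E hΩ hcap κ hR (aleph_one_le_continuum.trans hκ1) (hcov T hT)
    (ι := Set Ω) ?_ f ?_
  · rw [mk_set, hΩ]; exact hκ2
  · intro X Y hXY
    have : ∃ x, ¬ (x ∈ X ↔ x ∈ Y) := by
      by_contra hcon
      push Not at hcon
      exact hXY (Set.ext hcon)
    obtain ⟨x, hx⟩ := this
    refine (hIic x).mono ?_
    intro a ha
    have h1 : X ∩ Iic a = Y ∩ Iic a := congrArg Subtype.val ha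
    by_contra hax
    have hxa : x ≤ a := (not_le.1 hax).le
    apply hx
    constructor
    · intro hxX
      exact (h1 ▸ (⟨hxX, hxa⟩ : x ∈ X ∩ Iic a) : x ∈ Y ∩ Iic a).1
    · intro hxY
      exact (h1 ▸ (⟨hxY, hxa⟩ : x ∈ Y ∩ Iic a) : x ∈ X ∩ Iic a).1

/-- Translation: a combinatorial separation gives a separation of the subspace. -/
theorem separated_of_comb {X : Type u} [TopologicalSpace X] (Y : Set X) 
    (Fam : Set (Y → Set X)) (hopen : ∀ f ∈ Fam, ∀ y, IsOpen (f y) ∧ (y : X) ∈ f y)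
    (hwit : ∀ Z : Set Y, ∃ f ∈ Fam, WitnessesNormality f Z)
    (hcomb : ∀ E : Fam → Setoid Y, (∀ Z : Set Y, ∃ r, ∀ a b, (E r).r a b → a ∈ Z → b ∈ Z) →
      Sep E univ) :
    IsSeparatedSubset Y := by
  classical
  let E : Fam → Setoid Y := fun f => Relation.EqvGen.setoid fun y z => ((f : Y → Set X) y ∩
    (f : Y → Set X) z).Nonempty
  have hE : ∀ (f : Fam) (y z : Y), ¬ (E f).r y z → (f : Y → Set X) y ∩ (f : Y → Set X) z = ∅ := by
    intro f y z h
    by_contra hne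
    exact h (Relation.EqvGen.rel _ _ (nonempty_iff_ne_empty.2 hne))
  have hcap : ∀ Z : Set Y, ∃ f : Fam, ∀ a b, (E f).r a b → a ∈ Z → b ∈ Z := by
    intro Z
    obtain ⟨f, hf, hZ⟩ := hwit Z
    refine ⟨⟨f, hf⟩, ?_⟩
    intro a b hab
    suffices a ∈ Z ↔ b ∈ Z from this.1
    have hab' : Relation.EqvGen (fun y z => (f y ∩ f z).Nonempty) a b := hab
    induction hab' with
    | rel x y hxy =>
      obtain ⟨p, hp1, hp2⟩ := hxy
      by_contra hcon
      have hmem : ∀ x y : Y, p ∈ f x → p ∈ f y → x ∈ Z → y ∉ Z → False := by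
        intro x y hx hy hxZ hyZ
        have : p ∈ (⋃ y ∈ Z, f y) ∩ (⋃ y ∈ Zᶜ, f y) :=
          ⟨mem_biUnion hxZ hx, mem_biUnion (show y ∈ Zᶜ from hyZ) hy⟩
        rw [hZ] at this
        exact this
      by_cases hx : x ∈ Z
      · by_cases hy : y ∈ Z
        · exact hcon ⟨fun _ => hy, fun _ => hx⟩
        · exact hmem x y hp1 hp2 hx hy
      · by_cases hy : y ∈ Z
        · exact hmem y x hp2 hp1 hy hx
        · exact hcon ⟨fun h => absurd h hx, fun h => absurd h hy⟩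
    | refl x => exact Iff.rfl
    | symm x y _ ih => exact (ih (Relation.EqvGen.symm _ _ ‹_›)).symm
    | trans x y z h1 h2 ih1 ih2 => exact (ih1 h1).trans (ih2 h2)
  obtain ⟨h, hfin, hsep⟩ := hcomb E hcap
  refine ⟨fun y => ⋂ f ∈ h y, (f : Y → Set X) y, ?_, ?_⟩
  · intro y
    refine ⟨(hfin y).isOpen_biInter fun f _ => (hopen f f.2 y).1, ?_⟩
    exact mem_iInter₂.2 fun f _ => (hopen f f.2 y).2
  · intro y z hyz
    obtain ⟨f, ⟨hf1, hf2⟩, hf3⟩ := hsep y (mem_univ y) z (mem_univ z) hyz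
    have h0 := hE f y z hf3
    apply subset_empty_iff.1
    rw [← h0]
    exact inter_subset_inter (biInter_subset_of_mem hf1) (biInter_subset_of_mem hf2)

/-- Few normality witnesses give a separation. -/
theorem separated_of_few {X : Type u} [TopologicalSpace X] (Y : Set X) (hY : #Y = ℵ₁)
    (κ : Cardinal.{u}) (hκ1 : 𝔠 ≤ κ) (hκ2 : κ < 2 ^ (ℵ₁ : Cardinal.{u}))
    (hcov : ∀ T : Type u, #T = 𝔠 → Cov T κ)
    (Fam : Set (Y → Set X)) (hopen : ∀ f ∈ Fam, ∀ y, IsOpen (f y) ∧ (y : X) ∈ f y)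
    (hcard : #Fam ≤ κ) (hwit : ∀ Z : Set Y, ∃ f ∈ Fam, WitnessesNormality f Z) :
    IsSeparatedSubset Y :=
  separated_of_comb Y Fam hopen hwit fun E hcap => comb E hY hcap κ hcard hκ1 hκ2 hcov

/-- Version with eventually different functions. -/
theorem separated_of_family {X : Type u} [TopologicalSpace X] (Y : Set X) (hY : #Y = ℵ₁)
    (Fam : Set (Y → Set X)) (hopen : ∀ f ∈ Fam, ∀ y, IsOpen (f y) ∧ (y : X) ∈ f y)
    (hwit : ∀ Z : Set Y, ∃ f ∈ Fam, WitnessesNormality f Z)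
    (Ω : Type u) (hΩ : #Ω = ℵ₁) (G : Set (Ω → Ω)) (hG1 : max (#Fam) ℵ₁ < #G)
    (hG : ∀ f ∈ G, ∀ g ∈ G, f ≠ g → {a | f a = g a}.Countable) :
    IsSeparatedSubset Y := by
  obtain ⟨e⟩ : Nonempty (Y ≃ Ω) := Cardinal.eq.1 (hY.trans hΩ.symm)
  refine separated_of_comb Y Fam hopen hwit fun E hcap =>
    comb_gen E hY hcap (max (#Fam) ℵ₁) (le_max_left _ _) (le_max_right _ _) (T := Ω) ?_
      (ι := G) hG1 (fun g y => (g : Ω → Ω) (e y)) ?_
  · refine ⟨{Set.univ}, ?_, ?_, ?_⟩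
    · rw [mk_singleton]
      exact one_le_aleph0.trans ((aleph0_le_aleph 1).trans (le_max_right _ _))
    · rintro P rfl
      rw [mk_univ, hΩ]
    · intro A _
      exact ⟨fun _ => Set.univ, fun _ => rfl, fun a _ => mem_iUnion.2 ⟨0, mem_univ a⟩⟩
  · intro f g hfg
    have h := hG f f.2 g g.2 (fun h => hfg (Subtype.ext h))
    exact h.preimage e.injective

end Pool.Agent.Helper14.NW
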